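import Pool.Agent.Helper70.EC.All

/-!
# Product-free subsets of `SL₂(F_p)`: elements in dense cosets of point stabilisers

Let `p` be a prime, `n = p (p² - 1)` the order of `SL₂(F_p)`. For points `x`, `y` of the projective line the elements `h`
with `h x = y` form a coset of the stabiliser of `x` with `p (p - 1)` elements.

If `S` is product-free, `0 < s ≤ 1` and `s⁵ p ≥ 40000`, then at most `100 s^(-1/2) n^(5/6)` elements of `S` lie in a
coset `{h : h x = y}` which contains at least `s p (p - 1)` elements of `S`. For every `p` there is a product-free set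
with at least `n^(5/6) / 20` elements, each of which lies in a coset `{h : h x = y}` containing at least `(3/4) p (p - 1)`
elements of the set.
-/

namespace Pool.Agent.Results.MP_5c9371_al.DenseCosets

open scoped LinearAlgebra.Projectivization

theorem result (p : ℕ) [Fact p.Prime] :
    (∀ S : Set (Matrix.SpecialLinearGroup (Fin 2) (ZMod p)), (∀ x ∈ S, ∀ y ∈ S, x * y ∉ S) →
      ∀ s : ℝ, 0 < s → s ≤ 1 → 40000 ≤ s ^ 5 * p →
        ({g | g ∈ S ∧ ∃ x : ℙ (ZMod p) (Fin 2 → ZMod p),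
            s * (p * (p - 1)) ≤ ({h | h ∈ S ∧ h • x = g • x}.ncard : ℝ)}.ncard : ℝ) ≤
          100 * s ^ (-(1 / 2) : ℝ) * ((p * (p ^ 2 - 1) : ℕ) : ℝ) ^ (5 / 6 : ℝ)) ∧
    (∃ S : Set (Matrix.SpecialLinearGroup (Fin 2) (ZMod p)), (∀ x ∈ S, ∀ y ∈ S, x * y ∉ S) ∧
      ((p * (p ^ 2 - 1) : ℕ) : ℝ) ^ (5 / 6 : ℝ) / 20 ≤ S.ncard ∧
      ∀ g ∈ S, ∃ x : ℙ (ZMod p) (Fin 2 → ZMod p),
        (3 / 4 : ℝ) * (p * (p - 1)) ≤ ({h | h ∈ S ∧ h • x = g • x}.ncard : ℝ)) :=
  ⟨fun S hS => Pool.Agent.Helper70.EC.pT2 p S hS, Pool.Agent.Helper70.EC.pT3 p⟩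

end Pool.Agent.Results.MP_5c9371_al.DenseCosets
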