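import Pool.Agent.Helper94.SY.All

/-!
# Product-free subsets of `SL₂(F_p)`: elements in dense cosets of Sylow `p`-subgroups

Let `p` be a prime, `n = p (p² - 1)` the order of `G = SL₂(F_p)`, `S` a product-free subset of `G` and `s > 1/2`. At most
`200 (2s-1)^(-2/3) n^(13/15)` elements `g` of `S` lie in a coset `g P` of a Sylow `p`-subgroup `P` (`p` elements) which
contains at least `s p` elements of `S`.
-/

namespace Pool.Agent.Results.MP_5c9371_al.DenseSylowCosets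

theorem result (p : ℕ) [Fact p.Prime] (S : Set (Matrix.SpecialLinearGroup (Fin 2) (ZMod p)))
    (hS : ∀ x ∈ S, ∀ y ∈ S, x * y ∉ S) (s : ℝ) (hs : 1 / 2 < s) :
    ({g | g ∈ S ∧ ∃ P : Sylow p (Matrix.SpecialLinearGroup (Fin 2) (ZMod p)),
        s * p ≤ ({h | h ∈ S ∧ g⁻¹ * h ∈ P}.ncard : ℝ)}.ncard : ℝ) ≤
      200 * (2 * s - 1) ^ (-(2 / 3) : ℝ) * ((p * (p ^ 2 - 1) : ℕ) : ℝ) ^ (13 / 15 : ℝ) :=
  Pool.Agent.Helper94.SY.pFI p S hS s hs

end Pool.Agent.Results.MP_5c9371_al.DenseSylowCosets
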