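import Pool.Agent.Helper1.PFS.Fin

/-!
# Product-free subsets of `SL₂(F_p)` moving a point of the projective line to few points

Let `S` be a product-free subset of `SL₂(F_p)`, `α` a point of the projective line over `F_p` and
`Θ` a set of points which does not contain `α`. Then the number of `s ∈ S` with `s α ∈ Θ` is at
most `((4p - 2) |Θ| n²)^{1/3}`, `n = p (p² - 1)` the order of the group.
-/

namespace Pool.Agent.Results.MP_5c9371_al.FewImages

open scoped LinearAlgebra.Projectivization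

theorem result (p : ℕ) [Fact p.Prime] (S : Set (Matrix.SpecialLinearGroup (Fin 2) (ZMod p)))
    (hS : ∀ x ∈ S, ∀ y ∈ S, x * y ∉ S) (α : ℙ (ZMod p) (Fin 2 → ZMod p))
    (Θ : Set (ℙ (ZMod p) (Fin 2 → ZMod p))) (hα : α ∉ Θ) :
    {s | s ∈ S ∧ s • α ∈ Θ}.ncard ^ 3 ≤ (4 * p - 2) * Θ.ncard * (p * (p ^ 2 - 1)) ^ 2 :=
  Pool.Agent.Helper1.PFS.final p S hS α Θ hα

end Pool.Agent.Results.MP_5c9371_al.FewImages
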