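import Pool.Agent.Helper70.EC.All

/-!
# Product-free subsets of `SL₂(F_p)` and pairs of points of the projective line

Let `p` be a prime, `n = p (p² - 1)` the order of `SL₂(F_p)`, `S` a product-free subset and `E` a set of pairs of points
of the projective line. The number `N` of the `g ∈ S` with `g x = y` for some `(x, y) ∈ E` satisfies
`N³ ≤ 4000 p |E| n²`.
-/

namespace Pool.Agent.Results.MP_5c9371_al.PairCosets

open scoped LinearAlgebra.Projectivization

theorem result (p : ℕ) [Fact p.Prime] (S : Set (Matrix.SpecialLinearGroup (Fin 2) (ZMod p)))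
    (hS : ∀ x ∈ S, ∀ y ∈ S, x * y ∉ S)
    (E : Set (ℙ (ZMod p) (Fin 2 → ZMod p) × ℙ (ZMod p) (Fin 2 → ZMod p))) :
    {g | g ∈ S ∧ ∃ e ∈ E, g • e.1 = e.2}.ncard ^ 3 ≤
      4000 * p * E.ncard * (p * (p ^ 2 - 1)) ^ 2 :=
  Pool.Agent.Helper70.EC.pT1 p S hS E

end Pool.Agent.Results.MP_5c9371_al.PairCosets
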